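import Pool.Agent.U762.EE.Stm

set_option autoImplicit false

/-! # Project EE (helper762), package BCe (helper643): Borel-Cantelli -/

namespace Pool.Agent.U643.EE

open Finset MeasureTheory Filter Pool.Agent.U762.RP Pool.Agent.U762.EE

theorem t_BCe : S_BCe := by
  intro d m r μ _ M C θ s hM hC hθ hs h
  have hp : 1 < θ * (s - 1) := by
    have h1 : 1 / θ < s - 1 := by linarith
    rw [div_lt_iff₀ hθ] at h1
    linarith
  have hs1 : 1 < s := by
    have : 0 < 1 / θ := by positivity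
    linarith
  have hae : ∀ᵐ ω ∂(Measure.infinitePi fun _ : ℤ => μ), {x : ℤ | ω ∈ (fun x : ℤ =>
      {ω : ℤ → ℤ | M ≤ |(x : ℝ)| ^ s ∧ ∃ L : ℕ, Reach d m r M (|(x : ℝ)| ^ s) L x ω}) x}.Finite := by
    refine ae_finite_setOf_mem ?_
    have hsum : Summable fun x : ℤ => C * |(x : ℝ)| ^ (-(θ * (s - 1))) :=
      (Real.summable_abs_int_rpow hp).mul_left C
    refine ne_top_of_le_ne_top hsum.tsum_ofReal_ne_top (ENNReal.tsum_le_tsum fun x => ?_)
    by_cases hx : M ≤ |(x : ℝ)| ^ s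
    · refine (measure_mono fun ω hω => hω.2).trans ((h _ x hx).trans (ENNReal.ofReal_le_ofReal ?_))
      have hx0 : x ≠ 0 := by
        intro h0
        rw [h0, Int.cast_zero, abs_zero, Real.zero_rpow (by linarith)] at hx
        linarith
      have hx1 : 0 < |(x : ℝ)| := abs_pos.mpr (by exact_mod_cast hx0)
      rw [mul_assoc, ← Real.rpow_mul hx1.le, ← Real.rpow_add hx1]
      apply le_of_eq
      congr 2
      ring
    · have : {ω : ℤ → ℤ | M ≤ |(x : ℝ)| ^ s ∧ ∃ L : ℕ, Reach d m r M (|(x : ℝ)| ^ s) L x ω} = ∅ := by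
        ext ω
        simp [hx]
      show (Measure.infinitePi fun _ : ℤ => μ)
        {ω : ℤ → ℤ | M ≤ |(x : ℝ)| ^ s ∧ ∃ L : ℕ, Reach d m r M (|(x : ℝ)| ^ s) L x ω} ≤ _
      rw [this, measure_empty]
      exact zero_le
  filter_upwards [hae] with ω hω
  refine (hω.union (Finset.finite_toSet (Icc (-⌈M⌉) ⌈M⌉))).subset fun x hx => ?_
  by_cases hxM : M ≤ |(x : ℝ)| ^ s
  · exact Or.inl ⟨hxM, hx⟩
  · right
    have h1 : |(x : ℝ)| ≤ M := by
      rcases lt_or_ge |(x : ℝ)| 1 with h2 | h2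
      · linarith
      · have h3 : |(x : ℝ)| ^ (1 : ℝ) ≤ |(x : ℝ)| ^ s :=
          Real.rpow_le_rpow_of_exponent_le h2 hs1.le
        rw [Real.rpow_one] at h3
        linarith [not_le.1 hxM]
    have h4 : |(x : ℝ)| ≤ (⌈M⌉ : ℝ) := h1.trans (Int.le_ceil M)
    have h5 : |x| ≤ ⌈M⌉ := by exact_mod_cast h4
    rw [Finset.mem_coe, Finset.mem_Icc]
    exact abs_le.1 h5

end Pool.Agent.U643.EE
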